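import Pool.Agent.Helper36.HS.GoalsL
import Pool.Agent.Helper9.SP.REGL

/-! # Packet HS-REGF: weak solutions have square integrable derivatives `cdb_l f` -/

open Complex Metric Set Filter Topology MeasureTheory
open scoped ContDiff ComplexConjugate ComplexOrder Manifold Convolution

namespace Pool.Agent.Helper7.HS

open Pool.Agent.Helper95.Lin Pool.Agent.Helper16.Abund Pool.Agent.Helper92.Orb
open Pool.Agent.Helper10.SP Pool.Agent.Helper9.SP Pool.Agent.Helper36.HS

variable {n : ℕ}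

/-- Localization of an integral to a small ball. -/
theorem int_loc {T : Set (Cn n)} {P Q h : Cn n → ℂ} {x : Cn n} {ε δ : ℝ} (hεδ : ε < δ)
    (hxT : closedBall x ε ⊆ T) (h0 : ∀ y ∉ closedBall x ε, h y = 0)
    (hPQ : ∀ y ∈ ball x δ, Q y = P y) : ∫ y in T, P y * h y = ∫ y, Q y * h y := by
  have h1 : ∫ y in T, Q y * h y = ∫ y, Q y * h y :=
    setIntegral_eq_integral_of_forall_compl_eq_zero fun y hy => by
      rw [h0 y fun h' => hy (hxT h'), mul_zero]
  rw [← h1]
  refine integral_congr_ae (Eventually.of_forall fun y => ?_)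
  show P y * _ = Q y * _
  by_cases hy : y ∈ closedBall x ε
  · rw [hPQ y (closedBall_subset_ball hεδ hy)]
  · rw [h0 y hy, mul_zero, mul_zero]

/-- The regularized equation with a right hand side. -/
theorem reg_eqF (hWIRT : S_WIRT) {T : Set (Cn n)} {A : Cn n → Matrix (Fin n) (Fin n) ℂ}
    {f f₁ F₀ G₀ : Cn n → ℂ} {F G : Fin n → Cn n → ℂ} (hw : WEq T A f F₀ F)
    (hf : LocallyIntegrable f₁) (hG₀ : LocallyIntegrable G₀) (hG : ∀ j, LocallyIntegrable (G j))
    {a : Fin n → Fin n → Cn n → ℂ}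
    (ha : ∀ k j, ContDiff ℝ ∞ (a k j)) (hac : ∀ k j, HasCompactSupport (a k j))
    {ε : ℝ} (hε : 0 < ε) {x : Cn n} (hxT : closedBall x ε ⊆ T)
    {δ : ℝ} (hεδ : ε < δ) (hag : ∀ k j, ∀ y ∈ ball x δ, a k j y = A y k j)
    (hfg : ∀ y ∈ ball x δ, f₁ y = f y) (hfg0 : ∀ y ∈ ball x δ, G₀ y = F₀ y)
    (hfgj : ∀ j, ∀ y ∈ ball x δ, G j y = F j y) :
    ∑ j, cd j (fun y => ∑ k, A y k j * cdb k (mollc f₁ ε) y) x =
      mollc G₀ ε x + ∑ j, cd j (fun y => ∑ k, Ph f₁ (a k j) ε k y + mollc (G j) ε y) x := by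
  have hm := mc_contDiff (n := n) ε
  have hmc := mc_cs (n := n) hε
  -- the test function
  have hζ : ContDiff ℝ ∞ (fun z => mc n ε (x - z)) := refl_contDiff hm x
  have hζ0 : ∀ z ∉ closedBall x ε, mc n ε (x - z) = 0 := by
    intro z hz
    refine mc_zero hε ?_
    rw [mem_closedBall, dist_eq_norm, norm_sub_rev] at hz
    exact (not_le.1 hz).le
  have hζs : tsupport (fun z => mc n ε (x - z)) ⊆ closedBall x ε := by
    refine closure_minimal ?_ isClosed_closedBall
    intro z hz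
    by_contra h
    exact hz (hζ0 z h)
  have hζc : HasCompactSupport (fun z => mc n ε (x - z)) :=
    HasCompactSupport.of_support_subset_isCompact (isCompact_closedBall x ε)
      ((subset_tsupport _).trans hζs)
  have hw' := hw _ ⟨hζ, hζc, hζs.trans hxT⟩
  have hcs : ∀ k j, HasCompactSupport (fun y => a k j y * cd j (fun z => mc n ε (x - z)) y) :=
    fun k j => (hac k j).mul_right
  have hcd : ∀ k j, ContDiff ℝ ∞ (fun y => a k j y * cd j (fun z => mc n ε (x - z)) y) :=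
    fun k j => (ha k j).mul (cd_contDiff hζ j)
  have hcd0 : ∀ j, ∀ y ∉ closedBall x ε, cd j (fun z => mc n ε (x - z)) y = 0 := by
    intro j y hy
    have h2 : (fun z => mc n ε (x - z)) =ᶠ[𝓝 y] fun _ => 0 := by
      filter_upwards [isClosed_closedBall.isOpen_compl.mem_nhds hy] with z hz
      exact hζ0 z hz
    rw [cd_congr h2, cd_zero]
  have hzero : ∀ (b : Cn n → ℂ) (k j : Fin n), ∀ y ∉ closedBall x ε,
      cdb k (fun y' => b y' * cd j (fun z => mc n ε (x - z)) y') y = 0 := by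
    intro b k j y hy
    have hev : ∀ᶠ y' in 𝓝 y, y' ∉ closedBall x ε := isClosed_closedBall.isOpen_compl.mem_nhds hy
    have h1 : (fun y' => b y' * cd j (fun z => mc n ε (x - z)) y') =ᶠ[𝓝 y] fun _ => 0 := by
      filter_upwards [hev] with y' hy'
      rw [hcd0 j y' hy', mul_zero]
    rw [cdb_congr h1, cdb_zero]
  -- the left side of the weak equation
  have hsum : ∑ j, ∑ k, ∫ y, f₁ y * cdb k (fun y' => a k j y' *
      cd j (fun z => mc n ε (x - z)) y') y =
      ∫ y in T, f y * ∑ k, ∑ j, cdb k (fun y' => A y' k j *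
        cd j (fun z => mc n ε (x - z)) y') y := by
    have hint : ∀ k j, Integrable fun y => f₁ y * cdb k (fun y' => a k j y' *
        cd j (fun z => mc n ε (x - z)) y') y := fun k j =>
      int_mul hf (cdb_contDiff (hcd k j) k).continuous (cdb_cs (hcs k j) k)
    have e1 : ∑ j, ∑ k, ∫ y, f₁ y * cdb k (fun y' => a k j y' *
        cd j (fun z => mc n ε (x - z)) y') y =
        ∫ y, f₁ y * ∑ k, ∑ j, cdb k (fun y' => a k j y' * cd j (fun z => mc n ε (x - z)) y') y := by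
      rw [Finset.sum_comm]
      simp only [Finset.mul_sum]
      rw [integral_finsetSum _ fun k _ => integrable_finsetSum _ fun j _ => hint k j]
      refine Finset.sum_congr rfl fun k _ => ?_
      rw [integral_finsetSum _ fun j _ => hint k j]
    have e2 : ∫ y in T, f y * ∑ k, ∑ j, cdb k (fun y' => A y' k j *
        cd j (fun z => mc n ε (x - z)) y') y =
        ∫ y in T, f₁ y * ∑ k, ∑ j, cdb k (fun y' => a k j y' *
          cd j (fun z => mc n ε (x - z)) y') y := by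
      refine integral_congr_ae (Eventually.of_forall fun y => ?_)
      show f y * _ = f₁ y * _
      by_cases hy : y ∈ closedBall x ε
      · have hyδ : y ∈ ball x δ := closedBall_subset_ball hεδ hy
        rw [hfg y hyδ]
        congr 1
        refine Finset.sum_congr rfl fun k _ => Finset.sum_congr rfl fun j _ => ?_
        refine cdb_congr ?_ k
        filter_upwards [isOpen_ball.mem_nhds hyδ] with y' hy'
        rw [hag k j y' hy']
      · have h1 : ∑ k, ∑ j, cdb k (fun y' => A y' k j * cd j (fun z => mc n ε (x - z)) y') y = 0 :=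
          Finset.sum_eq_zero fun k _ => Finset.sum_eq_zero fun j _ =>
            hzero (fun y' => A y' k j) k j y hy
        have h2 : ∑ k, ∑ j, cdb k (fun y' => a k j y' * cd j (fun z => mc n ε (x - z)) y') y = 0 :=
          Finset.sum_eq_zero fun k _ => Finset.sum_eq_zero fun j _ => hzero _ k j y hy
        rw [h1, h2, mul_zero, mul_zero]
    rw [e1, e2, ← setIntegral_eq_integral_of_forall_compl_eq_zero (s := T)]
    intro y hy
    have hy' : y ∉ closedBall x ε := fun h => hy (hxT h)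
    rw [Finset.sum_eq_zero fun k _ => Finset.sum_eq_zero fun j _ => hzero _ k j y hy', mul_zero]
  -- the right side of the weak equation
  have hr0 : ∫ y in T, F₀ y * mc n ε (x - y) = mollc G₀ ε x := by
    rw [mollc_eq]
    exact int_loc hεδ hxT hζ0 hfg0
  have hrj : ∀ j, ∫ y in T, F j y * cd j (fun z => mc n ε (x - z)) y =
      - cd j (mollc (G j) ε) x := by
    intro j
    rw [int_loc hεδ hxT (hcd0 j) (hfgj j), mollc_eq, cd_cv (hG j) hm hmc]
    unfold cv
    rw [← integral_neg]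
    refine integral_congr_ae (Eventually.of_forall fun y => ?_)
    show G j y * _ = -(G j y * _)
    rw [cd_reflect hm]
    ring
  -- decompose the right side
  have hu : ContDiff ℝ ∞ (mollc f₁ ε) := by
    rw [mollc_eq]
    exact cv_contDiff hf hm hmc
  have hGs : ∀ j, ContDiff ℝ ∞ (mollc (G j) ε) := by
    intro j
    rw [mollc_eq]
    exact cv_contDiff (hG j) hm hmc
  have hR : ∀ j, cd j (fun y => ∑ k, Ph f₁ (a k j) ε k y + mollc (G j) ε y) x =
      ∑ k, cd j (Gp f₁ (a k j) ε k) x + cd j (fun y => ∑ k, A y k j * cdb k (mollc f₁ ε) y) x +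
        cd j (mollc (G j) ε) x := by
    intro j
    have h1 : (fun y => ∑ k, Ph f₁ (a k j) ε k y + mollc (G j) ε y) =
        fun y => ((fun y => ∑ k, Gp f₁ (a k j) ε k y) y +
          (fun y => ∑ k, a k j y * cdb k (mollc f₁ ε) y) y) + mollc (G j) ε y := by
      funext y
      show _ = (∑ k, Gp f₁ (a k j) ε k y + ∑ k, a k j y * cdb k (mollc f₁ ε) y) + _
      rw [← Finset.sum_add_distrib]
      congr 1
      refine Finset.sum_congr rfl fun k _ => ?_
      unfold Ph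
      rw [phi_eq hf (ha k j) (hac k j) hε, mollc_eq, cdb_cv hf hm hmc]
      rfl
    have d1 : DifferentiableAt ℝ (fun y => ∑ k, Gp f₁ (a k j) ε k y) x :=
      dAt (ContDiff.sum fun k _ => Gp_contDiff hf (ha k j) (hac k j) hε k) x
    have d2 : DifferentiableAt ℝ (fun y => ∑ k, a k j y * cdb k (mollc f₁ ε) y) x :=
      dAt (ContDiff.sum fun k _ => (ha k j).mul (cdb_contDiff hu k)) x
    rw [h1, cd_add' (d1.fun_add d2) (dAt (hGs j) x), cd_add' d1 d2, cd_sum]
    · congr 2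
      refine cd_congr ?_ j
      filter_upwards [isOpen_ball.mem_nhds (mem_ball_self (hε.trans hεδ))] with y hy
      exact Finset.sum_congr rfl fun k _ => by rw [hag k j y hy]
    · exact fun k _ => dAt (Gp_contDiff hf (ha k j) (hac k j) hε k) x
  simp only [hR]
  rw [Finset.sum_add_distrib, Finset.sum_add_distrib]
  have hG' : ∑ j, ∑ k, cd j (Gp f₁ (a k j) ε k) x =
      - (mollc G₀ ε x + ∑ j, cd j (mollc (G j) ε) x) := by
    simp only [fun k j => cd_Gp hWIRT hf (ha k j) (hac k j) hε k j x]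
    simp only [Finset.sum_neg_distrib]
    rw [hsum, hw', hr0, Finset.sum_congr rfl fun j _ => hrj j, Finset.sum_neg_distrib]
    ring
  rw [hG']
  ring

/-- The difference of two mollifications. -/
theorem moll_diff (hMOL2 : S_MOL2) {f : Cn n → ℂ} (hf : MemLp f 2 volume) (K : Set (Cn n))
    {ε ε' : ℝ} (hε : 0 < ε) (hε' : 0 < ε') :
    (∫ x in K, ‖mollc f ε x - mollc f ε' x‖ ^ 2 ≤
      2 * (∫ x, ‖mollc f ε x - f x‖ ^ 2) + 2 * ∫ x, ‖mollc f ε' x - f x‖ ^ 2) ∧
    Integrable (fun x => ‖mollc f ε x - mollc f ε' x‖ ^ 2) := by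
  obtain ⟨hM1, -⟩ := hMOL2 f hf
  have i1 : Integrable fun x => 2 * ‖mollc f ε x - f x‖ ^ 2 :=
    (int_sq ((hM1 ε hε).2.1.sub hf)).const_mul 2
  have i2 : Integrable fun x => 2 * ‖mollc f ε' x - f x‖ ^ 2 :=
    (int_sq ((hM1 ε' hε').2.1.sub hf)).const_mul 2
  refine ⟨?_, int_sq ((hM1 ε hε).2.1.sub (hM1 ε' hε').2.1)⟩
  calc ∫ x in K, ‖mollc f ε x - mollc f ε' x‖ ^ 2
      ≤ ∫ x in K, (2 * ‖mollc f ε x - f x‖ ^ 2 + 2 * ‖mollc f ε' x - f x‖ ^ 2) := by
        refine integral_mono_of_nonneg (Eventually.of_forall fun x => by positivity)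
          (i1.add i2).integrableOn (Eventually.of_forall fun x => ?_)
        exact norm_sub_sq_le _ _ _
    _ ≤ ∫ x, (2 * ‖mollc f ε x - f x‖ ^ 2 + 2 * ‖mollc f ε' x - f x‖ ^ 2) :=
        setIntegral_le_integral (i1.add i2) (Eventually.of_forall fun x => by
          show (0 : ℝ) ≤ _
          positivity)
    _ = _ := by rw [integral_add i1 i2, integral_const_mul, integral_const_mul]

theorem memLp_ind {T C : Set (Cn n)} {f : Cn n → ℂ} (hf : L2l T f) (hCT : C ⊆ T)
    (hC : IsCompact C) : MemLp (C.indicator f) 2 volume ∧ LocallyIntegrable (C.indicator f) := by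
  have hfC := hf C hCT hC
  have h1 : MemLp (C.indicator f) 2 volume :=
    (memLp_indicator_iff_restrict hC.measurableSet).2 hfC
  have hfi : Integrable (C.indicator f) := by
    rw [integrable_indicator_iff hC.measurableSet]
    have : IsFiniteMeasure (volume.restrict C) :=
      ⟨by rw [Measure.restrict_apply_univ]; exact hC.measure_lt_top⟩
    exact hfC.integrable one_le_two
  exact ⟨h1, hfi.locallyIntegrable⟩

theorem regf (hWIRT : S_WIRT) (hMOL2 : S_MOL2) (hFRIE : S_FRIE) (hCACF : S_CACF) : S_REGF := by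
  intro n T A hT hA hPD f F₀ F hf hF₀ hF hw l C C₁ hC hC₁ hCC₁ hC₁T d hd
  obtain ⟨χ, hχ', hχ0, hχ1, hχC⟩ := Pool.Agent.Helper45.Lin.exists_cutoff isOpen_interior hC hCC₁
  have hχ : TestF T χ := ⟨hχ'.1, hχ'.2.1, hχ'.2.2.trans (interior_subset.trans hC₁T)⟩
  have hK : IsCompact (tsupport χ) := hχ.2.1
  obtain ⟨δ, hδ, hδT⟩ := hK.exists_cthickening_subset_open isOpen_interior hχ'.2.2
  obtain ⟨η, hη, hη0, hη1, hηC⟩ := Pool.Agent.Helper45.Lin.exists_cutoff hT hC₁ hC₁T
  obtain ⟨f₁, hf₁⟩ : ∃ f₁ : Cn n → ℂ, f₁ = indicator C₁ f := ⟨_, rfl⟩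
  obtain ⟨G₀, hG₀⟩ : ∃ G₀ : Cn n → ℂ, G₀ = indicator C₁ F₀ := ⟨_, rfl⟩
  obtain ⟨G, hG⟩ : ∃ G : Fin n → Cn n → ℂ, G = fun j => indicator C₁ (F j) := ⟨_, rfl⟩
  obtain ⟨hf1, hf1l⟩ : MemLp f₁ 2 volume ∧ LocallyIntegrable f₁ := by
    rw [hf₁]; exact memLp_ind hf hC₁T hC₁
  obtain ⟨hG0, hG0l⟩ : MemLp G₀ 2 volume ∧ LocallyIntegrable G₀ := by
    rw [hG₀]; exact memLp_ind hF₀ hC₁T hC₁
  have hGj : ∀ j, MemLp (G j) 2 volume ∧ LocallyIntegrable (G j) := by
    rw [hG]; exact fun j => memLp_ind (hF j) hC₁T hC₁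
  obtain ⟨a, ha⟩ : ∃ a : Fin n → Fin n → Cn n → ℂ, a = fun k j y => (η y : ℂ) * A y k j :=
    ⟨_, rfl⟩
  have hηc : ContDiff ℝ ∞ fun y => (η y : ℂ) := Complex.ofRealCLM.contDiff.comp hη.1
  have has : ∀ k j, ContDiff ℝ ∞ (a k j) := by
    intro k j
    rw [ha, contDiff_iff_contDiffAt]
    intro x
    by_cases hx : x ∈ T
    · exact hηc.contDiffAt.mul ((hA k j).contDiffAt (hT.mem_nhds hx))
    · have hx' : x ∉ tsupport η := fun h => hx (hη.2.2 h)
      have h0 := notMem_tsupport_iff_eventuallyEq.1 hx'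
      refine (contDiffAt_const (c := (0 : ℂ))).congr_of_eventuallyEq ?_
      filter_upwards [h0] with y hy
      rw [hy]
      simp
  have hac : ∀ k j, HasCompactSupport (a k j) := by
    intro k j
    rw [ha]
    exact (hη.2.1.comp_left (g := fun t : ℝ => (t : ℂ)) (by simp)).mul_right
  have hball : ∀ x ∈ tsupport χ, ball x δ ⊆ C₁ := fun x hx =>
    ((ball_subset_thickening hx δ).trans (thickening_subset_cthickening _ _)).trans
      (hδT.trans interior_subset)
  have hag : ∀ x ∈ tsupport χ, ∀ k j, ∀ y ∈ ball x δ, a k j y = A y k j := by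
    intro x hx k j y hy
    rw [ha]
    show (η y : ℂ) * A y k j = A y k j
    rw [hηC y (hball x hx hy)]
    simp
  have hfg : ∀ x ∈ tsupport χ, ∀ y ∈ ball x δ, f₁ y = f y := by
    intro x hx y hy
    rw [hf₁, indicator_of_mem (hball x hx hy)]
  have hfg0 : ∀ x ∈ tsupport χ, ∀ y ∈ ball x δ, G₀ y = F₀ y := by
    intro x hx y hy
    rw [hG₀, indicator_of_mem (hball x hx hy)]
  have hfgj : ∀ x ∈ tsupport χ, ∀ j, ∀ y ∈ ball x δ, G j y = F j y := by
    intro x hx j y hy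
    rw [hG]
    exact indicator_of_mem (hball x hx hy) _
  obtain ⟨hM1, hM2⟩ := hMOL2 f₁ hf1
  obtain ⟨hM01, hM02⟩ := hMOL2 G₀ hG0
  have hMj := fun j => hMOL2 (G j) (hGj j).1
  obtain ⟨B, hB⟩ := hCACF T A hT hA hPD χ hχ
  -- smoothness
  obtain ⟨FF, hFF⟩ : ∃ FF : ℝ → Cn n → Cn n,
    FF = fun ε x j => ∑ k, Ph f₁ (a k j) ε k x + mollc (G j) ε x := ⟨_, rfl⟩
  have hFFs : ∀ ε, 0 < ε → ContDiff ℝ ∞ (FF ε) := by
    intro ε hε
    rw [hFF]
    exact contDiff_pi.2 fun j => (ContDiff.sum fun k _ =>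
      Ph_contDiff hf1l (has k j) (hac k j) hε k).add ((hMj j).1 ε hε).1
  have heq : ∀ ε, 0 < ε → ε < δ → ∀ x ∈ tsupport χ,
      ∑ j, cd j (fun y => ∑ k, A y k j * cdb k (mollc f₁ ε) y) x =
        mollc G₀ ε x + ∑ j, cd j (fun y => FF ε y j) x := by
    intro ε hε hεδ x hx
    have h1 : closedBall x ε ⊆ T :=
      ((closedBall_subset_ball hεδ).trans (hball x hx)).trans hC₁T
    have h2 := reg_eqF hWIRT hw hf1l hG0l (fun j => (hGj j).2) has hac hε h1 hεδ (hag x hx)
      (hfg x hx) (hfg0 x hx) (hfgj x hx)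
    rw [hFF]
    exact h2
  -- the error terms
  obtain ⟨r, hr⟩ : ∃ r : ℝ → ℝ, r = fun ε => ∫ x, ‖mollc f₁ ε x - f₁ x‖ ^ 2 := ⟨_, rfl⟩
  obtain ⟨r0, hr0⟩ : ∃ r0 : ℝ → ℝ, r0 = fun ε => ∫ x, ‖mollc G₀ ε x - G₀ x‖ ^ 2 := ⟨_, rfl⟩
  obtain ⟨rj, hrj⟩ : ∃ rj : ℝ → ℝ, rj = fun ε => ∑ j, ∫ x, ‖mollc (G j) ε x - G j x‖ ^ 2 :=
    ⟨_, rfl⟩
  obtain ⟨R, hR⟩ : ∃ R : ℝ → ℝ, R = fun ε => ∑ j, ∑ k, ∫ x, ‖Ph f₁ (a k j) ε k x‖ ^ 2 :=
    ⟨_, rfl⟩
  have hrt : Tendsto r (𝓝[>] 0) (𝓝 0) := by rw [hr]; exact hM2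
  have hr0t : Tendsto r0 (𝓝[>] 0) (𝓝 0) := by rw [hr0]; exact hM02
  have hrjt : Tendsto rj (𝓝[>] 0) (𝓝 0) := by
    rw [hrj]
    have h1 : Tendsto (fun ε => ∑ j, ∫ x, ‖mollc (G j) ε x - G j x‖ ^ 2) (𝓝[>] 0)
        (𝓝 (∑ j : Fin n, (0 : ℝ))) := tendsto_finsetSum _ fun j _ => (hMj j).2
    simpa using h1
  have hRt : Tendsto R (𝓝[>] 0) (𝓝 0) := by
    rw [hR]
    have h1 : Tendsto (fun ε => ∑ j, ∑ k, ∫ x, ‖Ph f₁ (a k j) ε k x‖ ^ 2) (𝓝[>] 0)
        (𝓝 (∑ j : Fin n, ∑ k : Fin n, (0 : ℝ))) :=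
      tendsto_finsetSum _ fun j _ => tendsto_finsetSum _ fun k _ =>
        (hFRIE (a k j) f₁ (has k j) (hac k j) hf1 k).2
    simpa using h1
  have hPhm : ∀ ε, 0 < ε → ∀ k j, MemLp (Ph f₁ (a k j) ε k) 2 volume := fun ε hε k j =>
    (hFRIE (a k j) f₁ (has k j) (hac k j) hf1 k).1 ε hε
  -- the main estimate
  have hmain : ∀ ε, 0 < ε → ε < δ → ∀ ε', 0 < ε' → ε' < δ →
      ∫ x in C, ‖cdb l (mollc f₁ ε) x - cdb l (mollc f₁ ε') x‖ ^ 2 ≤
        |B| * (2 * r ε + 2 * r0 ε + 4 * n * R ε + 4 * rj ε) +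
          |B| * (2 * r ε' + 2 * r0 ε' + 4 * n * R ε' + 4 * rj ε') := by
    intro ε hε hεδ ε' hε' hεδ'
    have hu := (hM1 ε hε).1
    have hu' := (hM1 ε' hε').1
    have hus : ContDiff ℝ ∞ (fun y => mollc f₁ ε y - mollc f₁ ε' y) := hu.sub hu'
    have hcd : ∀ l x, cdb l (fun y => mollc f₁ ε y - mollc f₁ ε' y) x =
        cdb l (mollc f₁ ε) x - cdb l (mollc f₁ ε') x := fun l x =>
      cdb_sub (dAt hu x) (dAt hu' x) l
    have key := hB (fun y => mollc f₁ ε y - mollc f₁ ε' y)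
      (fun y => mollc G₀ ε y - mollc G₀ ε' y) (fun y => FF ε y - FF ε' y)
      hus.contDiffOn ((hM01 ε hε).1.sub (hM01 ε' hε').1).contDiffOn
      ((hFFs ε hε).sub (hFFs ε' hε')).contDiffOn ?_
    · have m2 := (moll_diff hMOL2 hf1 (tsupport χ) hε hε').1
      have m4 := (moll_diff hMOL2 hG0 (tsupport χ) hε hε').1
      have m5 := fun j => moll_diff hMOL2 (hGj j).1 univ hε hε'
      have j1 : ∀ ε, 0 < ε → ∀ j k, Integrable fun x => ‖Ph f₁ (a k j) ε k x‖ ^ 2 :=
        fun ε hε j k => int_sq (hPhm ε hε k j)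
      have j2 : ∀ ε, 0 < ε → Integrable fun x =>
          4 * (n : ℝ) * ∑ j, ∑ k, ‖Ph f₁ (a k j) ε k x‖ ^ 2 := fun ε hε =>
        (integrable_finsetSum _ fun j _ => integrable_finsetSum _ fun k _ =>
          j1 ε hε j k).const_mul _
      have j3 : ∀ ε, 0 < ε → ∫ x, 4 * (n : ℝ) * ∑ j, ∑ k, ‖Ph f₁ (a k j) ε k x‖ ^ 2 =
          4 * n * R ε := by
        intro ε hε
        rw [integral_const_mul, integral_finsetSum _ fun j _ => integrable_finsetSum _ fun k _ =>
          j1 ε hε j k, hR]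
        congr 1
        refine Finset.sum_congr rfl fun j _ => ?_
        rw [integral_finsetSum _ fun k _ => j1 ε hε j k]
      have j4 : Integrable fun x => 2 * ∑ j, ‖mollc (G j) ε x - mollc (G j) ε' x‖ ^ 2 :=
        (integrable_finsetSum _ fun j _ => (m5 j).2).const_mul 2
      have j6 : Integrable fun x => 4 * (n : ℝ) * ∑ j, ∑ k, ‖Ph f₁ (a k j) ε k x‖ ^ 2 +
          4 * (n : ℝ) * ∑ j, ∑ k, ‖Ph f₁ (a k j) ε' k x‖ ^ 2 := (j2 ε hε).add (j2 ε' hε')
      have j5 : ∫ x, 2 * ∑ j, ‖mollc (G j) ε x - mollc (G j) ε' x‖ ^ 2 ≤ 4 * rj ε + 4 * rj ε' := by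
        rw [integral_const_mul, integral_finsetSum _ fun j _ => (m5 j).2]
        have h1 : ∑ j, ∫ x, ‖mollc (G j) ε x - mollc (G j) ε' x‖ ^ 2 ≤
            ∑ j, (2 * (∫ x, ‖mollc (G j) ε x - G j x‖ ^ 2) +
              2 * ∫ x, ‖mollc (G j) ε' x - G j x‖ ^ 2) := by
          refine Finset.sum_le_sum fun j _ => ?_
          have := (m5 j).1
          rwa [setIntegral_univ] at this
        rw [Finset.sum_add_distrib, ← Finset.mul_sum, ← Finset.mul_sum] at h1
        rw [hrj]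
        linarith
      have m3 : ∫ x in tsupport χ, ∑ j, ‖(FF ε x - FF ε' x) j‖ ^ 2 ≤
          4 * n * R ε + 4 * n * R ε' + (4 * rj ε + 4 * rj ε') := by
        calc ∫ x in tsupport χ, ∑ j, ‖(FF ε x - FF ε' x) j‖ ^ 2
            ≤ ∫ x in tsupport χ, (4 * (n : ℝ) * ∑ j, ∑ k, ‖Ph f₁ (a k j) ε k x‖ ^ 2 +
                4 * (n : ℝ) * ∑ j, ∑ k, ‖Ph f₁ (a k j) ε' k x‖ ^ 2 +
                2 * ∑ j, ‖mollc (G j) ε x - mollc (G j) ε' x‖ ^ 2) := by
              refine integral_mono_of_nonneg (Eventually.of_forall fun x => by positivity)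
                (j6.add j4).integrableOn
                (Eventually.of_forall fun x => ?_)
              show ∑ j, ‖(FF ε x - FF ε' x) j‖ ^ 2 ≤
                4 * (n : ℝ) * ∑ j, ∑ k, ‖Ph f₁ (a k j) ε k x‖ ^ 2 +
                  4 * (n : ℝ) * ∑ j, ∑ k, ‖Ph f₁ (a k j) ε' k x‖ ^ 2 +
                  2 * ∑ j, ‖mollc (G j) ε x - mollc (G j) ε' x‖ ^ 2
              rw [Finset.mul_sum, Finset.mul_sum, Finset.mul_sum, ← Finset.sum_add_distrib,
                ← Finset.sum_add_distrib]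
              refine Finset.sum_le_sum fun j _ => ?_
              have e1 : (FF ε x - FF ε' x) j = (∑ k, Ph f₁ (a k j) ε k x -
                  ∑ k, Ph f₁ (a k j) ε' k x) - (-(mollc (G j) ε x - mollc (G j) ε' x)) := by
                rw [hFF]
                show (∑ k, Ph f₁ (a k j) ε k x + mollc (G j) ε x) -
                  (∑ k, Ph f₁ (a k j) ε' k x + mollc (G j) ε' x) = _
                ring
              rw [e1]
              have h0 := norm_sub_sq_le (∑ k, Ph f₁ (a k j) ε k x - ∑ k, Ph f₁ (a k j) ε' k x)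
                (-(mollc (G j) ε x - mollc (G j) ε' x)) 0
              rw [sub_zero, sub_zero, norm_neg] at h0
              have h1 := norm_sub_sq_le (∑ k, Ph f₁ (a k j) ε k x) (∑ k, Ph f₁ (a k j) ε' k x) 0
              rw [sub_zero, sub_zero] at h1
              have h2 := norm_sum_sq_le (fun k => Ph f₁ (a k j) ε k x)
              have h3 := norm_sum_sq_le (fun k => Ph f₁ (a k j) ε' k x)
              linarith
          _ ≤ ∫ x, (4 * (n : ℝ) * ∑ j, ∑ k, ‖Ph f₁ (a k j) ε k x‖ ^ 2 +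
                4 * (n : ℝ) * ∑ j, ∑ k, ‖Ph f₁ (a k j) ε' k x‖ ^ 2 +
                2 * ∑ j, ‖mollc (G j) ε x - mollc (G j) ε' x‖ ^ 2) :=
              setIntegral_le_integral (j6.add j4)
                (Eventually.of_forall fun x => by
                  show (0 : ℝ) ≤ _
                  positivity)
          _ ≤ _ := by
              rw [integral_add j6 j4, integral_add (j2 ε hε) (j2 ε' hε'), j3 ε hε, j3 ε' hε']
              linarith
      have m1 : ∫ x in C, ‖cdb l (mollc f₁ ε) x - cdb l (mollc f₁ ε') x‖ ^ 2 ≤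
          ∫ x in T, χ x ^ 2 * ∑ k, ‖cdb k (fun y => mollc f₁ ε y - mollc f₁ ε' y) x‖ ^ 2 := by
        have hcont : Continuous fun x => χ x ^ 2 *
            ∑ k, ‖cdb k (fun y => mollc f₁ ε y - mollc f₁ ε' y) x‖ ^ 2 :=
          (hχ.1.continuous.pow 2).mul (continuous_finsetSum _ fun k _ =>
            ((cdb_contDiff hus k).continuous.norm.pow 2))
        have hcs : HasCompactSupport fun x => χ x ^ 2 *
            ∑ k, ‖cdb k (fun y => mollc f₁ ε y - mollc f₁ ε' y) x‖ ^ 2 :=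
          (hχ.2.1.comp_left (g := fun t : ℝ => t ^ 2) (by simp)).mul_right
        have hint : Integrable (fun x => χ x ^ 2 *
            ∑ k, ‖cdb k (fun y => mollc f₁ ε y - mollc f₁ ε' y) x‖ ^ 2) volume :=
          hcont.integrable_of_hasCompactSupport hcs
        calc ∫ x in C, ‖cdb l (mollc f₁ ε) x - cdb l (mollc f₁ ε') x‖ ^ 2
            ≤ ∫ x in C, χ x ^ 2 *
              ∑ k, ‖cdb k (fun y => mollc f₁ ε y - mollc f₁ ε' y) x‖ ^ 2 := by
              refine integral_mono_of_nonneg (Eventually.of_forall fun x => by positivity)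
                hint.integrableOn ?_
              refine (ae_restrict_iff' hC.measurableSet).2 (Eventually.of_forall fun x hx => ?_)
              show ‖cdb l (mollc f₁ ε) x - cdb l (mollc f₁ ε') x‖ ^ 2 ≤ χ x ^ 2 * _
              rw [hχC x hx, one_pow, one_mul, ← hcd]
              exact Finset.single_le_sum
                (f := fun k => ‖cdb k (fun y => mollc f₁ ε y - mollc f₁ ε' y) x‖ ^ 2)
                (fun k _ => by positivity) (Finset.mem_univ l)
          _ ≤ _ := by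
              refine setIntegral_mono_set hint.integrableOn ?_
                (LE.le.eventuallyLE ((hCC₁.trans interior_subset).trans hC₁T))
              exact Eventually.of_forall fun x => by
                show (0 : ℝ) ≤ _
                positivity
      have hn1 : 0 ≤ ∫ x in tsupport χ, ‖mollc f₁ ε x - mollc f₁ ε' x‖ ^ 2 :=
        integral_nonneg fun x => by positivity
      have hn3 : 0 ≤ ∫ x in tsupport χ, ‖mollc G₀ ε x - mollc G₀ ε' x‖ ^ 2 :=
        integral_nonneg fun x => by positivity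
      have hn2 : 0 ≤ ∫ x in tsupport χ, ∑ j, ‖(FF ε x - FF ε' x) j‖ ^ 2 :=
        integral_nonneg fun x => by positivity
      calc _ ≤ _ := m1
        _ ≤ B * ((∫ x in tsupport χ, ‖mollc f₁ ε x - mollc f₁ ε' x‖ ^ 2) +
              (∫ x in tsupport χ, ‖mollc G₀ ε x - mollc G₀ ε' x‖ ^ 2) +
              ∫ x in tsupport χ, ∑ j, ‖(FF ε x - FF ε' x) j‖ ^ 2) := key
        _ ≤ |B| * ((∫ x in tsupport χ, ‖mollc f₁ ε x - mollc f₁ ε' x‖ ^ 2) +
              (∫ x in tsupport χ, ‖mollc G₀ ε x - mollc G₀ ε' x‖ ^ 2) +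
              ∫ x in tsupport χ, ∑ j, ‖(FF ε x - FF ε' x) j‖ ^ 2) :=
            mul_le_mul_of_nonneg_right (le_abs_self B) (by positivity)
        _ ≤ |B| * ((2 * r ε + 2 * r ε') + (2 * r0 ε + 2 * r0 ε') +
              (4 * n * R ε + 4 * n * R ε' + (4 * rj ε + 4 * rj ε'))) := by
            refine mul_le_mul_of_nonneg_left ?_ (abs_nonneg B)
            rw [hr, hr0]
            exact add_le_add (add_le_add m2 m4) m3
        _ = _ := by ring
    · intro x hx
      have hxT := hχ.2.2 hx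
      have hAd : ∀ k j, DifferentiableAt ℝ (fun y => A y k j) x := fun k j =>
        ((hA k j).contDiffAt (hT.mem_nhds hxT)).differentiableAt (by simp)
      have hsd : ∀ ε, 0 < ε → ∀ j, DifferentiableAt ℝ
          (fun y => ∑ k, A y k j * cdb k (mollc f₁ ε) y) x := fun ε hε j =>
        DifferentiableAt.fun_sum fun k _ => (hAd k j).mul (dAt (cdb_contDiff (hM1 ε hε).1 k) x)
      have e1 : ∀ j, cd j (fun y => ∑ k, A y k j *
          cdb k (fun y => mollc f₁ ε y - mollc f₁ ε' y) y) x =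
          cd j (fun y => ∑ k, A y k j * cdb k (mollc f₁ ε) y) x -
            cd j (fun y => ∑ k, A y k j * cdb k (mollc f₁ ε') y) x := by
        intro j
        rw [← cd_sub (hsd ε hε j) (hsd ε' hε' j)]
        congr 1
        funext y
        rw [← Finset.sum_sub_distrib]
        exact Finset.sum_congr rfl fun k _ => by rw [hcd, mul_sub]
      have e2 : ∀ j, cd j (fun y => (FF ε y - FF ε' y) j) x =
          cd j (fun y => FF ε y j) x - cd j (fun y => FF ε' y j) x := by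
        intro j
        exact cd_sub (dAt (contDiff_pi.1 (hFFs ε hε) j) x) (dAt (contDiff_pi.1 (hFFs ε' hε') j) x) j
      simp only [e1, e2, Finset.sum_sub_distrib]
      rw [heq ε hε hεδ x hx, heq ε' hε' hεδ' x hx]
      ring
  -- conclusion
  have hs : Tendsto (fun ε => |B| * (2 * r ε + 2 * r0 ε + 4 * n * R ε + 4 * rj ε))
      (𝓝[>] 0) (𝓝 0) := by
    have h1 := ((((hrt.const_mul 2).add (hr0t.const_mul 2)).add
      (hRt.const_mul (4 * (n : ℝ)))).add (hrjt.const_mul 4)).const_mul |B|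
    simpa using h1
  have h1 : ∀ᶠ ε in 𝓝[>] (0 : ℝ),
      |B| * (2 * r ε + 2 * r0 ε + 4 * n * R ε + 4 * rj ε) < d / 2 :=
    hs.eventually_lt_const (by linarith)
  have h2 : ∀ᶠ ε in 𝓝[>] (0 : ℝ), ε < δ :=
    eventually_nhdsWithin_of_eventually_nhds (eventually_lt_nhds hδ)
  obtain ⟨ε₀, hε₀, hε₀'⟩ := mem_nhdsGT_iff_exists_Ioo_subset.1 (h1.and h2)
  refine ⟨ε₀, hε₀, fun ε ε' hε hε1 hε' hε1' => ?_⟩
  obtain ⟨p1, p2⟩ := hε₀' ⟨hε, hε1⟩
  obtain ⟨q1, q2⟩ := hε₀' ⟨hε', hε1'⟩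
  have h3 := hmain ε hε p2 ε' hε' q2
  rw [hf₁] at h3
  have h4 : ∀ x, ‖dz (l, true) (mollc (C₁.indicator f) ε) x -
      dz (l, true) (mollc (C₁.indicator f) ε') x‖ ^ 2 =
      ‖cdb l (mollc (C₁.indicator f) ε) x - cdb l (mollc (C₁.indicator f) ε') x‖ ^ 2 :=
    fun x => rfl
  simp only [h4]
  linarith

end Pool.Agent.Helper7.HS
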