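import Pool.Agent.Helper57.HS.GoalsG

/-! # HS-G, packet COMP: composition with a fixed map -/

open Complex Metric Set Filter Topology MeasureTheory
open scoped ContDiff ComplexConjugate ComplexOrder Manifold Matrix

namespace Pool.Agent.Helper7.HS

open Pool.Agent.Helper95.Lin Pool.Agent.Helper16.Abund Pool.Agent.Helper10.SP
  Pool.Agent.Helper95.RK Pool.Agent.Helper57.HS

theorem self_le_rpow {t a D : ℝ} (ht : 0 ≤ t) (ha : 0 < a) (ha1 : a ≤ 1) (hD : 1 ≤ D)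
    (htD : t ≤ D) : t ≤ D * t ^ a := by
  rcases le_total t 1 with h | h
  · have h1 : t ≤ t ^ a := by
      rcases ht.eq_or_lt with h0 | h0
      · rw [← h0, Real.zero_rpow ha.ne']
      · calc t = t ^ (1 : ℝ) := (Real.rpow_one t).symm
          _ ≤ t ^ a := Real.rpow_le_rpow_of_exponent_ge h0 h ha1
    have h2 : t ^ a ≤ D * t ^ a := le_mul_of_one_le_left (Real.rpow_nonneg ht a) hD
    exact h1.trans h2
  · have h1 : 1 ≤ t ^ a := Real.one_le_rpow h ha.le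
    calc t ≤ D := htD
      _ = D * 1 := (mul_one D).symm
      _ ≤ D * t ^ a := by gcongr

/-- A `C¹` function on a neighbourhood of a compact convex set is bounded and Lipschitz there. -/
theorem bdd_lip {n : ℕ} {F : Type*} [NormedAddCommGroup F] [NormedSpace ℝ F] {U B : Set (Cn n)}
    (hU : IsOpen U) (hB : IsCompact B) (hconv : Convex ℝ B) (hBU : B ⊆ U) {g : Cn n → F}
    (hg : ContDiffOn ℝ ∞ g U) : ∃ C : ℝ, 1 ≤ C ∧ (∀ x ∈ B, ‖g x‖ ≤ C) ∧
      ∀ x ∈ B, ∀ y ∈ B, ‖g x - g y‖ ≤ C * ‖x - y‖ := by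
  have h1 : ContDiffOn ℝ ∞ (fderiv ℝ g) U := hg.fderiv_of_isOpen hU (by simp)
  obtain ⟨C0, hC0⟩ := hB.exists_bound_of_continuousOn (hg.continuousOn.mono hBU)
  obtain ⟨C1, hC1⟩ := hB.exists_bound_of_continuousOn (h1.continuousOn.mono hBU)
  refine ⟨max 1 (max C0 C1), le_max_left _ _,
    fun x hx => (hC0 x hx).trans ((le_max_left _ _).trans (le_max_right _ _)),
    fun x hx y hy => ?_⟩
  exact hconv.norm_image_sub_le_of_norm_fderiv_le
    (fun z hz => (hg.differentiableOn (by simp)).differentiableAt (hU.mem_nhds (hBU hz)))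
    (fun z hz => (hC1 z hz).trans ((le_max_right _ _).trans (le_max_right _ _))) hy hx

theorem comp : S_COMP := by
  intro n τ U x₀ r a hU hBU hτ ha ha1
  have hB : IsCompact (closedBall x₀ r) := isCompact_closedBall x₀ r
  have hconv : Convex ℝ (closedBall x₀ r) := convex_closedBall x₀ r
  have h1 : ContDiffOn ℝ ∞ (fderiv ℝ τ) U := hτ.fderiv_of_isOpen hU (by simp)
  have h2 : ContDiffOn ℝ ∞ (fderiv ℝ (fderiv ℝ τ)) U := h1.fderiv_of_isOpen hU (by simp)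
  obtain ⟨C0, hC01, -, hC0⟩ := bdd_lip hU hB hconv hBU hτ
  obtain ⟨C1, hC11, hC1, hC1'⟩ := bdd_lip hU hB hconv hBU h1
  obtain ⟨C2, hC21, hC2, hC2'⟩ := bdd_lip hU hB hconv hBU h2
  obtain ⟨L, hL1, k0, k1, k2⟩ : ∃ L : ℝ, 1 ≤ L ∧ C0 ≤ L ∧ C1 ≤ L ∧ C2 ≤ L :=
    ⟨max C0 (max C1 C2), hC01.trans (le_max_left _ _), le_max_left _ _,
      (le_max_left _ _).trans (le_max_right _ _), (le_max_right _ _).trans (le_max_right _ _)⟩
  have hL0 : 0 ≤ L := by linarith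
  have hb1 : ∀ x ∈ closedBall x₀ r, ‖fderiv ℝ τ x‖ ≤ L := fun x hx => (hC1 x hx).trans k1
  have hb2 : ∀ x ∈ closedBall x₀ r, ‖fderiv ℝ (fderiv ℝ τ) x‖ ≤ L :=
    fun x hx => (hC2 x hx).trans k2
  have dτ : ∀ x ∈ U, DifferentiableAt ℝ τ x := fun x hx =>
    (hτ.differentiableOn (by simp)).differentiableAt (hU.mem_nhds hx)
  have dτ1 : ∀ x ∈ U, DifferentiableAt ℝ (fderiv ℝ τ) x := fun x hx =>
    (h1.differentiableOn (by simp)).differentiableAt (hU.mem_nhds hx)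
  have l0 : ∀ x ∈ closedBall x₀ r, ∀ y ∈ closedBall x₀ r, ‖τ x - τ y‖ ≤ L * ‖x - y‖ :=
    fun x hx y hy => (hC0 x hx y hy).trans (mul_le_mul_of_nonneg_right k0 (norm_nonneg _))
  have l1 : ∀ x ∈ closedBall x₀ r, ∀ y ∈ closedBall x₀ r,
      ‖fderiv ℝ τ x - fderiv ℝ τ y‖ ≤ L * ‖x - y‖ :=
    fun x hx y hy => (hC1' x hx y hy).trans (mul_le_mul_of_nonneg_right k1 (norm_nonneg _))
  have l2 : ∀ x ∈ closedBall x₀ r, ∀ y ∈ closedBall x₀ r,
      ‖fderiv ℝ (fderiv ℝ τ) x - fderiv ℝ (fderiv ℝ τ) y‖ ≤ L * ‖x - y‖ :=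
    fun x hx y hy => (hC2' x hx y hy).trans (mul_le_mul_of_nonneg_right k2 (norm_nonneg _))
  obtain ⟨D, hD1, hD⟩ : ∃ D : ℝ, 1 ≤ D ∧ ∀ x ∈ closedBall x₀ r, ∀ y ∈ closedBall x₀ r,
      ‖x - y‖ ≤ D * ‖x - y‖ ^ a := by
    refine ⟨max 1 (2 * r), le_max_left _ _, fun x hx y hy => ?_⟩
    refine self_le_rpow (norm_nonneg _) ha ha1 (le_max_left _ _) ?_
    have e1 : dist x y ≤ 2 * r := by
      have := dist_triangle_right x y x₀
      rw [mem_closedBall] at hx hy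
      linarith
    rw [← dist_eq_norm]
    exact e1.trans (le_max_right _ _)
  refine ⟨5 * L ^ 3 * D, by positivity, ?_⟩
  intro W v M hW hmap hv hvM
  obtain ⟨hv0, hv2, hvH⟩ := hvM
  have hτW : ∀ x ∈ closedBall x₀ r, τ x ∈ W := fun x hx => hmap (hBU hx)
  have dv : ∀ x ∈ W, DifferentiableAt ℝ v x := fun x hx =>
    (hv.differentiableOn (by simp)).differentiableAt (hW.mem_nhds hx)
  have hv1 : ContDiffOn ℝ 1 (fderiv ℝ v) W := hv.fderiv_of_isOpen hW (by norm_num)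
  have dv1 : ∀ x ∈ W, DifferentiableAt ℝ (fderiv ℝ v) x := fun x hx =>
    (hv1.differentiableOn (by simp)).differentiableAt (hW.mem_nhds hx)
  -- the first derivative
  have hf1 : ∀ x ∈ U, HasFDerivAt (fun y => v (τ y))
      ((fderiv ℝ v (τ x)).comp (fderiv ℝ τ x)) x := fun x hx =>
    (dv _ (hmap hx)).hasFDerivAt.comp x (dτ x hx).hasFDerivAt
  have hp : ∀ x ∈ U, HasFDerivAt (fun y => fderiv ℝ v (τ y))
      ((D2 v (τ x)).comp (fderiv ℝ τ x)) x := fun x hx =>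
    (dv1 _ (hmap hx)).hasFDerivAt.comp x (dτ x hx).hasFDerivAt
  have hf2 : ∀ x ∈ U, ∀ e : Cn n, D2 (fun y => v (τ y)) x e =
      (D2 v (τ x) (fderiv ℝ τ x e)).comp (fderiv ℝ τ x) +
        (fderiv ℝ v (τ x)).comp (fderiv ℝ (fderiv ℝ τ) x e) := by
    intro x hx e
    have e1 : (fderiv ℝ fun y => v (τ y)) =ᶠ[𝓝 x]
        fun y => (fderiv ℝ v (τ y)).comp (fderiv ℝ τ y) :=
      eventually_of_mem (hU.mem_nhds hx) fun y hy => (hf1 y hy).fderiv
    have e2 := (hp x hx).clm_comp (dτ1 x hx).hasFDerivAt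
    unfold D2
    rw [e1.fderiv_eq, e2.fderiv]
    ext w
    simp [D2, add_comm]
  -- bounds
  have hpl : ∀ x ∈ closedBall x₀ r, ∀ y ∈ closedBall x₀ r,
      ‖fderiv ℝ v (τ x) - fderiv ℝ v (τ y)‖ ≤ M * L * ‖x - y‖ := by
    intro x hx y hy
    refine hconv.norm_image_sub_le_of_norm_fderiv_le (f := fun y => fderiv ℝ v (τ y))
      (fun z hz => (hp z (hBU hz)).differentiableAt) (fun z hz => ?_) hy hx
    rw [(hp z (hBU hz)).fderiv]
    refine (ContinuousLinearMap.opNorm_comp_le _ _).trans ?_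
    exact mul_le_mul (hv2 _ (hτW z hz)) (hb1 z hz) (norm_nonneg _)
      ((norm_nonneg (D2 v (τ z))).trans (hv2 _ (hτW z hz)))
  have hL2 : L ≤ L ^ 2 := by nlinarith
  have hL3 : L ^ 2 ≤ L ^ 3 := by nlinarith [sq_nonneg L]
  refine ⟨fun x hx => ?_, fun x hx => ?_, fun x hx y hy => ?_⟩
  · have hM : 0 ≤ M := (norm_nonneg _).trans (hv0 _ (hτW x hx)).1
    have hLD : L ≤ 5 * L ^ 3 * D := by nlinarith [pow_nonneg hL0 3]
    constructor
    · calc ‖v (τ x)‖ ≤ M := (hv0 _ (hτW x hx)).1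
        _ = 1 * M := (one_mul M).symm
        _ ≤ 5 * L ^ 3 * D * M := by gcongr; linarith
    · rw [(hf1 x (hBU hx)).fderiv]
      calc ‖(fderiv ℝ v (τ x)).comp (fderiv ℝ τ x)‖
          ≤ ‖fderiv ℝ v (τ x)‖ * ‖fderiv ℝ τ x‖ := ContinuousLinearMap.opNorm_comp_le _ _
        _ ≤ M * L := by
          exact mul_le_mul (hv0 _ (hτW x hx)).2 (hb1 x hx) (norm_nonneg _) hM
        _ = L * M := mul_comm _ _
        _ ≤ 5 * L ^ 3 * D * M := by gcongr
  · have hM : 0 ≤ M := (norm_nonneg _).trans (hv0 _ (hτW x hx)).1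
    have hLD : 2 * L ^ 2 ≤ 5 * L ^ 3 * D := by nlinarith [pow_nonneg hL0 3]
    refine ContinuousLinearMap.opNorm_le_bound _ (by positivity) fun e => ?_
    rw [hf2 x (hBU hx) e]
    have b1 : ‖(D2 v (τ x) (fderiv ℝ τ x e)).comp (fderiv ℝ τ x)‖ ≤ M * (L * ‖e‖) * L := by
      refine (ContinuousLinearMap.opNorm_comp_le _ _).trans ?_
      refine mul_le_mul ?_ (hb1 x hx) (norm_nonneg _) (by positivity)
      refine (ContinuousLinearMap.le_opNorm _ _).trans ?_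
      refine mul_le_mul (hv2 _ (hτW x hx)) ?_ (norm_nonneg _) hM
      exact (ContinuousLinearMap.le_opNorm _ _).trans
        (mul_le_mul_of_nonneg_right (hb1 x hx) (norm_nonneg _))
    have b2 : ‖(fderiv ℝ v (τ x)).comp (fderiv ℝ (fderiv ℝ τ) x e)‖ ≤ M * (L * ‖e‖) := by
      refine (ContinuousLinearMap.opNorm_comp_le _ _).trans ?_
      refine mul_le_mul (hv0 _ (hτW x hx)).2 ?_ (norm_nonneg _) hM
      exact (ContinuousLinearMap.le_opNorm _ _).trans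
        (mul_le_mul_of_nonneg_right (hb2 x hx) (norm_nonneg _))
    calc _ ≤ M * (L * ‖e‖) * L + M * (L * ‖e‖) := (norm_add_le _ _).trans (add_le_add b1 b2)
      _ = (L ^ 2 + L) * (M * ‖e‖) := by ring
      _ ≤ (5 * L ^ 3 * D) * (M * ‖e‖) := by
        refine mul_le_mul_of_nonneg_right (by linarith) (by positivity)
      _ = 5 * L ^ 3 * D * M * ‖e‖ := by ring
  · have hM : 0 ≤ M := (norm_nonneg _).trans (hv0 _ (hτW x hx)).1
    have hs : 0 ≤ ‖x - y‖ ^ a := Real.rpow_nonneg (norm_nonneg _) a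
    have hxy := hD x hx y hy
    -- the Hölder bound of the second derivative at the image points
    have c1 : ‖D2 v (τ x) - D2 v (τ y)‖ ≤ M * (L * ‖x - y‖ ^ a) := by
      refine (hvH _ (hτW x hx) _ (hτW y hy)).trans ?_
      refine mul_le_mul_of_nonneg_left ?_ hM
      calc ‖τ x - τ y‖ ^ a ≤ (L * ‖x - y‖) ^ a :=
            Real.rpow_le_rpow (norm_nonneg _) (l0 x hx y hy) ha.le
        _ = L ^ a * ‖x - y‖ ^ a := Real.mul_rpow hL0 (norm_nonneg _)
        _ ≤ L * ‖x - y‖ ^ a := by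
          refine mul_le_mul_of_nonneg_right ?_ hs
          calc L ^ a ≤ L ^ (1 : ℝ) := Real.rpow_le_rpow_of_exponent_le hL1 ha1
            _ = L := Real.rpow_one L
    have c2 : ‖fderiv ℝ τ x - fderiv ℝ τ y‖ ≤ L * (D * ‖x - y‖ ^ a) :=
      (l1 x hx y hy).trans (mul_le_mul_of_nonneg_left hxy hL0)
    have c3 : ‖fderiv ℝ (fderiv ℝ τ) x - fderiv ℝ (fderiv ℝ τ) y‖ ≤ L * (D * ‖x - y‖ ^ a) :=
      (l2 x hx y hy).trans (mul_le_mul_of_nonneg_left hxy hL0)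
    have c4 : ‖fderiv ℝ v (τ x) - fderiv ℝ v (τ y)‖ ≤ M * L * (D * ‖x - y‖ ^ a) :=
      (hpl x hx y hy).trans (mul_le_mul_of_nonneg_left hxy (by positivity))
    refine ContinuousLinearMap.opNorm_le_bound _ (by positivity) fun e => ?_
    have key : (D2 (fun y => v (τ y)) x - D2 (fun y => v (τ y)) y) e =
        ((D2 v (τ x) - D2 v (τ y)) (fderiv ℝ τ x e)).comp (fderiv ℝ τ x) +
        (D2 v (τ y) ((fderiv ℝ τ x - fderiv ℝ τ y) e)).comp (fderiv ℝ τ x) +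
        (D2 v (τ y) (fderiv ℝ τ y e)).comp (fderiv ℝ τ x - fderiv ℝ τ y) +
        (fderiv ℝ v (τ x) - fderiv ℝ v (τ y)).comp (fderiv ℝ (fderiv ℝ τ) x e) +
        (fderiv ℝ v (τ y)).comp ((fderiv ℝ (fderiv ℝ τ) x - fderiv ℝ (fderiv ℝ τ) y) e) := by
      rw [_root_.sub_apply, hf2 x (hBU hx) e, hf2 y (hBU hy) e]
      ext w
      simp only [_root_.add_apply, _root_.sub_apply,
        ContinuousLinearMap.comp_apply, map_sub]
      ring
    rw [key]
    have hA : ‖fderiv ℝ τ x e‖ ≤ L * ‖e‖ := (ContinuousLinearMap.le_opNorm _ _).trans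
      (mul_le_mul_of_nonneg_right (hb1 x hx) (norm_nonneg _))
    have hA' : ‖fderiv ℝ τ y e‖ ≤ L * ‖e‖ := (ContinuousLinearMap.le_opNorm _ _).trans
      (mul_le_mul_of_nonneg_right (hb1 y hy) (norm_nonneg _))
    have hA2 : ‖fderiv ℝ (fderiv ℝ τ) x e‖ ≤ L * ‖e‖ := (ContinuousLinearMap.le_opNorm _ _).trans
      (mul_le_mul_of_nonneg_right (hb2 x hx) (norm_nonneg _))
    have t1 : ‖((D2 v (τ x) - D2 v (τ y)) (fderiv ℝ τ x e)).comp (fderiv ℝ τ x)‖ ≤
        M * (L * ‖x - y‖ ^ a) * (L * ‖e‖) * L := by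
      refine (ContinuousLinearMap.opNorm_comp_le _ _).trans ?_
      refine mul_le_mul ?_ (hb1 x hx) (norm_nonneg _) (by positivity)
      exact (ContinuousLinearMap.le_opNorm _ _).trans
        (mul_le_mul c1 hA (norm_nonneg _) (by positivity))
    have t2 : ‖(D2 v (τ y) ((fderiv ℝ τ x - fderiv ℝ τ y) e)).comp (fderiv ℝ τ x)‖ ≤
        M * (L * (D * ‖x - y‖ ^ a) * ‖e‖) * L := by
      refine (ContinuousLinearMap.opNorm_comp_le _ _).trans ?_
      refine mul_le_mul ?_ (hb1 x hx) (norm_nonneg _) (by positivity)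
      refine (ContinuousLinearMap.le_opNorm _ _).trans ?_
      refine mul_le_mul (hv2 _ (hτW y hy)) ?_ (norm_nonneg _) hM
      exact (ContinuousLinearMap.le_opNorm _ _).trans
        (mul_le_mul_of_nonneg_right c2 (norm_nonneg _))
    have t3 : ‖(D2 v (τ y) (fderiv ℝ τ y e)).comp (fderiv ℝ τ x - fderiv ℝ τ y)‖ ≤
        M * (L * ‖e‖) * (L * (D * ‖x - y‖ ^ a)) := by
      refine (ContinuousLinearMap.opNorm_comp_le _ _).trans ?_
      refine mul_le_mul ?_ c2 (norm_nonneg _) (by positivity)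
      exact (ContinuousLinearMap.le_opNorm _ _).trans
        (mul_le_mul (hv2 _ (hτW y hy)) hA' (norm_nonneg _) hM)
    have t4 : ‖(fderiv ℝ v (τ x) - fderiv ℝ v (τ y)).comp (fderiv ℝ (fderiv ℝ τ) x e)‖ ≤
        M * L * (D * ‖x - y‖ ^ a) * (L * ‖e‖) := by
      refine (ContinuousLinearMap.opNorm_comp_le _ _).trans ?_
      exact mul_le_mul c4 hA2 (norm_nonneg _) (by positivity)
    have t5 : ‖(fderiv ℝ v (τ y)).comp
        ((fderiv ℝ (fderiv ℝ τ) x - fderiv ℝ (fderiv ℝ τ) y) e)‖ ≤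
        M * (L * (D * ‖x - y‖ ^ a) * ‖e‖) := by
      refine (ContinuousLinearMap.opNorm_comp_le _ _).trans ?_
      refine mul_le_mul (hv0 _ (hτW y hy)).2 ?_ (norm_nonneg _) hM
      exact (ContinuousLinearMap.le_opNorm _ _).trans
        (mul_le_mul_of_nonneg_right c3 (norm_nonneg _))
    have hL3' : 0 ≤ L ^ 3 := by positivity
    have hLD3 : L ^ 3 ≤ L ^ 3 * D := le_mul_of_one_le_right hL3' hD1
    have hLD2 : L ^ 2 * D ≤ L ^ 3 * D := mul_le_mul_of_nonneg_right hL3 (by linarith)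
    have hLD1 : L * D ≤ L ^ 3 * D := mul_le_mul_of_nonneg_right (hL2.trans hL3) (by linarith)
    have hE : 0 ≤ M * ‖x - y‖ ^ a * ‖e‖ := by positivity
    calc _ ≤ M * (L * ‖x - y‖ ^ a) * (L * ‖e‖) * L + M * (L * (D * ‖x - y‖ ^ a) * ‖e‖) * L +
          M * (L * ‖e‖) * (L * (D * ‖x - y‖ ^ a)) + M * L * (D * ‖x - y‖ ^ a) * (L * ‖e‖) +
          M * (L * (D * ‖x - y‖ ^ a) * ‖e‖) :=
          (norm_add_le _ _).trans (add_le_add ((norm_add_le _ _).trans (add_le_add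
            ((norm_add_le _ _).trans (add_le_add ((norm_add_le _ _).trans
              (add_le_add t1 t2)) t3)) t4)) t5)
      _ = (L ^ 3 + L ^ 2 * D + L ^ 2 * D + L ^ 2 * D + L * D) *
          (M * ‖x - y‖ ^ a * ‖e‖) := by ring
      _ ≤ (5 * (L ^ 3 * D)) * (M * ‖x - y‖ ^ a * ‖e‖) :=
        mul_le_mul_of_nonneg_right (by linarith) hE
      _ = 5 * L ^ 3 * D * M * ‖x - y‖ ^ a * ‖e‖ := by ring

end Pool.Agent.Helper7.HS
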