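import Pool.Agent.Helper95.HS.GoalsB
import Pool.Agent.Helper15.HS.GoalsC
import Pool.Agent.Helper45.HS.MatC

/-! # HS, packet CRV: symmetries of the curvature, and its trace -/

open Complex Metric Set Filter Topology MeasureTheory
open scoped ContDiff ComplexConjugate ComplexOrder Manifold Matrix

namespace Pool.Agent.Helper7.HS

open Pool.Agent.Helper95.Lin Pool.Agent.Helper16.Abund Pool.Agent.Helper10.SP
  Pool.Agent.Helper95.RK Pool.Agent.Helper57.HS Pool.Agent.Helper45.HS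

theorem crv (h1 : Pool.Agent.Helper15.HS.S_MCAL) (h2 : Pool.Agent.Helper15.HS.S_CSY)
    (h3 : S_LMF) : Pool.Agent.Helper95.HS.S_CRV := by
  intro n W hW H hH hpos
  have hS : SmM H W := hH.smooth
  have hdet : ∀ x ∈ W, (H x).det ≠ 0 := fun x hx => posDef_det (hpos x hx)
  have hinv : SmM (fun x => (H x)⁻¹) W := hS.inv hdet
  obtain ⟨hld, -⟩ := (h1 W hW H H hS hS).2.2.2.2 hpos
  obtain ⟨hr1, hr2, -, hr4⟩ := h3 W hW (ld H) hld
  refine ⟨?_, ?_, ?_, ?_, ?_⟩
  · intro i j k l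
    have e1 : ContDiffOn ℝ ∞ (fun x => cdM k (cdbM l H) x i j) W :=
      SmM.cdM hW (SmM.cdbM hW hS l) k i j
    have e2 : ContDiffOn ℝ ∞ (fun x => (cdM k H x * (H x)⁻¹ * cdbM l H x) i j) W :=
      ((SmM.cdM hW hS k).mul hinv).mul (SmM.cdbM hW hS l) i j
    exact e1.neg.add e2
  · intro k i j
    exact ((SmM.cdM hW hS k).mul hinv) i j
  · exact hr1
  · exact ⟨hr1, hr2, fun x hx i j l => (hr4 x hx i j l).1⟩
  · intro x hx
    obtain ⟨c1, c2, c3⟩ := h2 W hW H hpos hS x hx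
    obtain ⟨c4, c5⟩ := c3 hH
    refine ⟨?_, ?_, ?_, fun i j k l => by rw [c1 i j k l, Matrix.neg_mul, Matrix.neg_apply],
      ?_, c5⟩
    · intro i j k
      simp only [Gam, Matrix.mul_apply]
      refine Finset.sum_congr rfl fun p _ => ?_
      congr 1
      exact hH.closed x hx i p k
    · intro k
      rw [Gam, Matrix.mul_assoc, Matrix.nonsing_inv_mul _ (hdet x hx).isUnit, Matrix.mul_one]
    · intro l
      have e1 : cdbM l (fun y => (H y)ᴴ) x = (cdM l H x)ᴴ := cdbM_conjTranspose hW hx hS l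
      have e2 : cdbM l (fun y => (H y)ᴴ) x = cdbM l H x :=
        cdbM_congr hW hx (fun y hy => (hpos y hy).1) l
      have e3 : ((H x)⁻¹)ᴴ = (H x)⁻¹ := (hpos x hx).1.inv
      rw [Gam, Matrix.conjTranspose_mul, e3, ← Matrix.mul_assoc,
        Matrix.mul_nonsing_inv _ (hdet x hx).isUnit, Matrix.one_mul, ← e1, e2]
    · intro i j k l
      exact ⟨(c4 i j k l).1, (c4 i j k l).2, (c2 i j k l).symm⟩

end Pool.Agent.Helper7.HS
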